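import Pool.Agent.helper50.NPP.Final

/-! The `2`-connected signed graphs with the negative pair property. -/

namespace Pool.Agent.Results.MP_790549_co.NegPairCharacterisation

open SimpleGraph NPP

/-- **The negative pair property of signed graphs.** Let `(G, σ)` be a finite signed graph.

(1) If `G` is `2`-connected, then `(G, σ)` has the negative pair property if and only if for all
distinct edges `e`, `f` some negative circle is one-sided for `e`, `f`, or every circle through `e`
and `f` is negative. Here the unavoidable vertices of `e` and `f` (which occur in the definition of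
one-sided circles) are the ends of `e` and `f` and the vertices of the pairs which separate `e`
from `f`.

(2) In terms of the `2`-separations of a `2`-connected graph `G`: the negative pair property holds
if and only if (a) for all distinct edges `e`, `f` in one piece of `G`, some negative circle avoids
`e`, `f` and their common ends and has all its edges on circles through `e` and `f`, or every
circle through `e` and `f` is negative, and (b) there are no `2`-separation of `G` and no sign `s`
such that both sides of the separation force `s`.

(3) If `G` is `3`-connected, then `(G, σ)` has the negative pair property if and only if every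
vertex is avoided by some negative circle and every two distinct edges are avoided by some negative
circle.

(4) If `G` is `k`-connected for some `k ≥ 3` and `g` is an edge of `G`, then the signature for
which `g` is the only negative edge is unbalanced and does not have the negative pair property.
(Complete graphs on `k + 1` vertices are `k`-connected.) -/
theorem result :
    (∀ (V : Type) [Fintype V] [DecidableEq V] (G : SimpleGraph V) (σ : Sym2 V → ℤˣ),
      (KConn 2 G → (NegPairProperty G σ ↔
        ∀ e ∈ G.edgeSet, ∀ f ∈ G.edgeSet, e ≠ f →
          (∃ (u : V) (c : G.Walk u u), c.IsCycle ∧ OneSided G e f c ∧ wsign σ c = -1) ∨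
          (∀ (u : V) (c : G.Walk u u), c.IsCycle → e ∈ c.edges → f ∈ c.edges →
            wsign σ c = -1))) ∧
      (∀ e ∈ G.edgeSet, ∀ f ∈ G.edgeSet, e ≠ f → ∀ v,
        (Unavoidable G e f v ↔ v ∈ e ∨ v ∈ f ∨ ∃ w, Separates G e f v w)) ∧
      (KConn 2 G → (NegPairProperty G σ ↔
        (∀ e ∈ G.edgeSet, ∀ f ∈ G.edgeSet, e ≠ f → SamePiece G e f →
          (∃ (u : V) (c : G.Walk u u), c.IsCycle ∧ (∀ g ∈ c.edges, OnCircle G e f g) ∧
            e ∉ c.edges ∧ f ∉ c.edges ∧ (∀ a ∈ e, a ∈ f → a ∉ c.support) ∧
            wsign σ c = -1) ∨
          (∀ (u : V) (c : G.Walk u u), c.IsCycle → e ∈ c.edges → f ∈ c.edges →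
            wsign σ c = -1)) ∧
        (∀ (A B : Set V) (x y : V), TwoSep G A B x y → ∀ s : ℤˣ,
          ¬ (Forces G σ A x y s ∧ Forces G σ B x y s)))) ∧
      (KConn 3 G → (NegPairProperty G σ ↔
        (∀ a : V, ∃ (u : V) (c : G.Walk u u), c.IsCycle ∧ a ∉ c.support ∧ wsign σ c = -1) ∧
        (∀ e ∈ G.edgeSet, ∀ f ∈ G.edgeSet, e ≠ f →
          ∃ (u : V) (c : G.Walk u u), c.IsCycle ∧ e ∉ c.edges ∧ f ∉ c.edges ∧
            wsign σ c = -1))) ∧
      (∀ k ≥ 3, KConn k G → ∀ g ∈ G.edgeSet,
        Unbalanced G (fun h => if h = g then -1 else 1) ∧
        ¬ NegPairProperty G (fun h => if h = g then -1 else 1))) ∧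
    ∀ k : ℕ, KConn k (⊤ : SimpleGraph (Fin (k + 1))) := by
  refine ⟨?_, kConn_complete⟩
  intro V _ _ G σ
  refine ⟨?_, ?_, ?_, ?_, ?_⟩
  · intro hG
    constructor
    · intro h e he f hf hef
      exact (negPair_iff_oneSided σ hef he hf (exists_circle hG hef he hf)).1 (h e he f hf hef)
    · intro h e he f hf hef
      exact (negPair_iff_oneSided σ hef he hf (exists_circle hG hef he hf)).2 (h e he f hf hef)
  · intro e he f hf hef v
    exact ⟨separates_of_unavoidable hef he hf, unavoidable_of_separates hef he hf⟩
  · intro hG
    exact negPairProperty_iff_two hG σ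
  · intro hG
    exact negPairProperty_iff hG σ
  · intro k hk hG g hg
    exact one_negative_edge (hG.mono hk) hg

end Pool.Agent.Results.MP_790549_co.NegPairCharacterisation
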