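import Pool.Agent.helper50.NPP.Final

/-! Pairs of edges in arbitrary signed graphs. -/

namespace Pool.Agent.Results.MP_790549_co.PairCertificate

open SimpleGraph NPP

/-- **Pairs of edges of an arbitrary finite signed graph.** Let `e` and `f` be distinct edges. No
negative circle contains both if and only if there are functions `α`, `β` from the vertices to
`{1, -1}` such that `α = 1` at the ends of `f`, `β = 1` at the ends of `e`, `α = β` at every vertex
which some circle through `e` and `f` avoids, `σ(uv) = α(u) β(v)` whenever a circle through `e` and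
`f` traverses `uv` from `u` to `v` on its way from `e` to `f`, and `σ(e) σ(f) ∏ α(v) β(v) = 1`. If
some circle contains both `e` and `f`, this holds if and only if no negative circle is one-sided
for `e` and `f` and some circle through `e` and `f` is positive. -/
theorem result (V : Type) [Fintype V] [DecidableEq V] (G : SimpleGraph V) (σ : Sym2 V → ℤˣ)
    (e f : Sym2 V) (he : e ∈ G.edgeSet) (hf : f ∈ G.edgeSet) (hef : e ≠ f) :
    ((¬ ∃ (u : V) (c : G.Walk u u), c.IsCycle ∧ e ∈ c.edges ∧ f ∈ c.edges ∧ wsign σ c = -1) ↔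
      ∃ α β : V → ℤˣ, Certificate G σ e f α β) ∧
    ((∃ (u : V) (c : G.Walk u u), c.IsCycle ∧ e ∈ c.edges ∧ f ∈ c.edges) →
      ((¬ ∃ (u : V) (c : G.Walk u u), c.IsCycle ∧ e ∈ c.edges ∧ f ∈ c.edges ∧ wsign σ c = -1) ↔
        (¬ ∃ (u : V) (c : G.Walk u u), c.IsCycle ∧ OneSided G e f c ∧ wsign σ c = -1) ∧
        ∃ (u : V) (c : G.Walk u u), c.IsCycle ∧ e ∈ c.edges ∧ f ∈ c.edges ∧ wsign σ c = 1)) := by
  constructor
  · have h := negPair_iff (G := G) σ hef he hf
    unfold NegPair at h
    rw [h, not_not]
  · intro hex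
    have h := negPair_iff_oneSided (G := G) σ hef he hf hex
    unfold NegPair at h
    rw [h, not_or]
    refine and_congr_right fun _ => ?_
    push Not
    constructor
    · rintro ⟨u, c, hc, h1, h2, h3⟩
      exact ⟨u, c, hc, h1, h2, units_of_ne h3⟩
    · rintro ⟨u, c, hc, h1, h2, h3⟩
      refine ⟨u, c, hc, h1, h2, ?_⟩
      rw [h3]
      decide

end Pool.Agent.Results.MP_790549_co.PairCertificate
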